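import Mathlib

/-!
# 2-adic valuations of Stirling numbers of the second kind: general machinery at level `2^9`
-/

open Finset

namespace Pool.Agent.X13.AMM

/-- explicit formula for Stirling numbers of the second kind -/
lemma explicit (n k : ℕ) :
    ((k.factorial * Nat.stirlingSecond n k : ℕ) : ℤ) =
      ∑ i ∈ range (k + 1), (-1) ^ (k + i) * (Nat.choose k i : ℤ) * (i : ℤ) ^ n := by
  induction n generalizing k with
  | zero =>
    have h := Int.alternating_sum_range_choose (n := k)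
    have h2 : ∑ i ∈ range (k + 1), (-1 : ℤ) ^ (k + i) * (Nat.choose k i : ℤ) * (i : ℤ) ^ 0 =
        (-1) ^ k * ∑ i ∈ range (k + 1), (-1 : ℤ) ^ i * (Nat.choose k i : ℤ) := by
      rw [Finset.mul_sum]
      exact Finset.sum_congr rfl (fun i _ => by rw [pow_add]; ring)
    rw [h2, h]
    rcases k with _ | k
    · simp
    · simp
  | succ n ih =>
    rcases k with _ | k
    · simp
    · rw [Nat.stirlingSecond_succ_succ, Nat.factorial_succ]
      have e : (((k + 1) * k.factorial * ((k + 1) * Nat.stirlingSecond n (k + 1) +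
          Nat.stirlingSecond n k) : ℕ) : ℤ) =
          ((k : ℤ) + 1) * (((k + 1).factorial * Nat.stirlingSecond n (k + 1) : ℕ) : ℤ) +
            ((k : ℤ) + 1) * ((k.factorial * Nat.stirlingSecond n k : ℕ) : ℤ) := by
        rw [Nat.factorial_succ]; push_cast; ring
      rw [e, ih, ih]
      have hlast : ∑ i ∈ range (k + 1), (-1 : ℤ) ^ (k + i) * (Nat.choose k i : ℤ) * (i : ℤ) ^ n =
          ∑ i ∈ range (k + 1 + 1), (-1 : ℤ) ^ (k + i) * (Nat.choose k i : ℤ) * (i : ℤ) ^ n := by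
        rw [Finset.sum_range_succ _ (k + 1), Nat.choose_succ_self]; simp
      rw [hlast, Finset.mul_sum, Finset.mul_sum, ← Finset.sum_add_distrib]
      apply Finset.sum_congr rfl
      intro i _
      have hc : (i : ℤ) * (Nat.choose (k + 1) i : ℤ) =
          ((k : ℤ) + 1) * ((Nat.choose (k + 1) i : ℤ) - (Nat.choose k i : ℤ)) := by
        rcases i with _ | i
        · simp
        · have h1 := Nat.add_one_mul_choose_eq k i
          have h1' : ((k : ℤ) + 1) * (Nat.choose k i : ℤ) =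
              (Nat.choose (k + 1) (i + 1) : ℤ) * ((i : ℤ) + 1) := by exact_mod_cast h1
          have h2 : (Nat.choose (k + 1) (i + 1) : ℤ) = Nat.choose k i + Nat.choose k (i + 1) := by
            rw [Nat.choose_succ_succ k i]; push_cast; rfl
          rw [h2] at h1' ⊢
          push_cast
          linarith
      have e1 : (-1 : ℤ) ^ (k + 1 + i) = -(-1) ^ (k + i) := by
        rw [show k + 1 + i = (k + i) + 1 by ring, pow_succ]; ring
      rw [e1, pow_succ]
      linear_combination ((-1 : ℤ) ^ (k + i) * (i : ℤ) ^ n) * hc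

lemma stirling_pos (n k : ℕ) (hk : 1 ≤ k) (h : k ≤ n) : 0 < Nat.stirlingSecond n k := by
  induction n generalizing k with
  | zero => omega
  | succ n ih =>
    obtain ⟨k, rfl⟩ : ∃ k', k = k' + 1 := ⟨k - 1, by omega⟩
    rw [Nat.stirlingSecond_succ_succ]
    rcases Nat.eq_zero_or_pos k with h0 | h0
    · subst h0
      rcases n with _ | n
      · simp
      · have := ih 1 (le_refl 1) (by omega)
        simp only [zero_add]
        omega
    · have := ih k h0 (by omega)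
      omega

/-- the odd-index part sums -/
def A (k s j : ℕ) : ℕ :=
  ∑ q ∈ range 36, Nat.choose k (2 * q + 1) * (2 * q + 1) ^ j * ((2 * q + 1) ^ 512 - 1) ^ s

lemma A_succ (k s j : ℕ) : A k s (j + 512) = A k s j + A k (s + 1) j := by
  unfold A
  rw [← Finset.sum_add_distrib]
  apply Finset.sum_congr rfl
  intro q _
  have h : 1 ≤ (2 * q + 1) ^ 512 := Nat.one_le_pow _ _ (by omega)
  obtain ⟨B, hB⟩ : ∃ B, (2 * q + 1) ^ 512 = B + 1 := ⟨(2 * q + 1) ^ 512 - 1, by omega⟩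
  rw [pow_add, hB]
  simp only [Nat.add_sub_cancel]
  ring

lemma A_add (k j d : ℕ) : A k 0 (j + 512 * d) = ∑ s ∈ range (d + 1), Nat.choose d s * A k s j := by
  unfold A
  simp_rw [Finset.mul_sum]
  rw [Finset.sum_comm]
  apply Finset.sum_congr rfl
  intro q _
  have h : 1 ≤ (2 * q + 1) ^ 512 := Nat.one_le_pow _ _ (by omega)
  obtain ⟨B, hB⟩ : ∃ B, (2 * q + 1) ^ 512 = B + 1 := ⟨(2 * q + 1) ^ 512 - 1, by omega⟩
  rw [pow_add, pow_mul, hB]
  simp only [Nat.add_sub_cancel, pow_zero, mul_one]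
  rw [add_pow B 1 d, Finset.mul_sum, Finset.mul_sum]
  apply Finset.sum_congr rfl
  intro s _
  simp only [one_pow, mul_one, Nat.cast_id]
  ring

lemma pow512 : ∀ q < 36, (2 * q + 1) ^ 512 % 2 ^ 11 = 1 := by decide +kernel

lemma A_dvd (k s j : ℕ) : 2 ^ (11 * s) ∣ A k s j := by
  unfold A
  apply Finset.dvd_sum
  intro q hq
  have h := pow512 q (Finset.mem_range.1 hq)
  apply Dvd.dvd.mul_left
  rw [pow_mul]
  apply pow_dvd_pow_of_dvd
  omega

lemma sum_even_odd (f : ℕ → ℤ) (n : ℕ) :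
    ∑ i ∈ range (2 * n), f i = ∑ q ∈ range n, (f (2 * q) + f (2 * q + 1)) := by
  induction n with
  | zero => simp
  | succ n ih =>
    rw [show 2 * (n + 1) = 2 * n + 1 + 1 by ring, Finset.sum_range_succ, Finset.sum_range_succ, ih,
      Finset.sum_range_succ]
    ring

/-- `k! S(j,k) = ± A k 0 j + 2^j G` -/
lemma key_formula (k j : ℕ) (hk : k ≤ 71) :
    ∃ G : ℤ, ((k.factorial * Nat.stirlingSecond j k : ℕ) : ℤ) =
      (-1) ^ (k + 1) * (A k 0 j : ℤ) + 2 ^ j * G := by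
  refine ⟨∑ q ∈ range 36, (-1) ^ k * (Nat.choose k (2 * q) : ℤ) * (q : ℤ) ^ j, ?_⟩
  rw [explicit]
  have h1 : ∑ i ∈ range (k + 1), (-1 : ℤ) ^ (k + i) * (Nat.choose k i : ℤ) * (i : ℤ) ^ j =
      ∑ i ∈ range (2 * 36), (-1 : ℤ) ^ (k + i) * (Nat.choose k i : ℤ) * (i : ℤ) ^ j := by
    apply Finset.sum_subset
    · intro i hi
      rw [Finset.mem_range] at hi ⊢
      omega
    · intro i _ hi
      rw [Finset.mem_range, not_lt] at hi
      rw [Nat.choose_eq_zero_of_lt (by omega)]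
      simp
  rw [h1, sum_even_odd]
  unfold A
  push_cast
  rw [Finset.mul_sum, Finset.mul_sum, ← Finset.sum_add_distrib]
  apply Finset.sum_congr rfl
  intro q _
  have e1 : (-1 : ℤ) ^ (k + 2 * q) = (-1) ^ k := by
    rw [pow_add, pow_mul]; simp
  have e2 : (-1 : ℤ) ^ (k + (2 * q + 1)) = (-1) ^ (k + 1) := by
    rw [show k + (2 * q + 1) = (k + 1) + 2 * q by ring, pow_add _ (k + 1), pow_mul]; simp
  rw [e1, e2, mul_pow]
  simp only [pow_zero, mul_one]
  ring

lemma dvd_iff (k j c : ℕ) (hk : k ≤ 71) (hc : c ≤ j) :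
    2 ^ c ∣ k.factorial * Nat.stirlingSecond j k ↔ 2 ^ c ∣ A k 0 j := by
  obtain ⟨G, hG⟩ := key_formula k j hk
  have h2 : ((2 : ℤ) ^ c) ∣ 2 ^ j * G := (pow_dvd_pow 2 hc).mul_right G
  rw [← Int.natCast_dvd_natCast (m := 2 ^ c) (n := k.factorial * Nat.stirlingSecond j k),
    ← Int.natCast_dvd_natCast (m := 2 ^ c) (n := A k 0 j), hG]
  push_cast
  rw [dvd_add_left h2]
  rcases neg_one_pow_eq_or ℤ (k + 1) with h | h
  · rw [h, one_mul]
  · rw [h, neg_one_mul, dvd_neg]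

/-- exact valuation -/
lemma val_eq (k j b : ℕ) (hk : k ≤ 71) (hb : b < j) (h1 : 2 ^ b ∣ A k 0 j)
    (h2 : ¬ 2 ^ (b + 1) ∣ A k 0 j) :
    padicValNat 2 k.factorial + padicValNat 2 (Nat.stirlingSecond j k) = b := by
  have g1 := (dvd_iff k j b hk hb.le).2 h1
  have g2 : ¬ 2 ^ (b + 1) ∣ k.factorial * Nat.stirlingSecond j k := fun h =>
    h2 ((dvd_iff k j (b + 1) hk hb).1 h)
  have hne : k.factorial * Nat.stirlingSecond j k ≠ 0 := by
    intro h; rw [h] at g2; exact g2 (dvd_zero _)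
  have hS : Nat.stirlingSecond j k ≠ 0 := right_ne_zero_of_mul hne
  rw [← padicValNat.mul (Nat.factorial_ne_zero k) hS]
  have l1 := (padicValNat_dvd_iff_le (p := 2) hne).1 g1
  have l2 : ¬ (b + 1 ≤ padicValNat 2 (k.factorial * Nat.stirlingSecond j k)) := fun h =>
    g2 ((padicValNat_dvd_iff_le (p := 2) hne).2 h)
  omega

lemma val_ge (k j b : ℕ) (hk1 : 1 ≤ k) (hk : k ≤ 71) (hkj : k ≤ j) (hb : b ≤ j)
    (h1 : 2 ^ b ∣ A k 0 j) :
    b ≤ padicValNat 2 k.factorial + padicValNat 2 (Nat.stirlingSecond j k) := by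
  have g1 := (dvd_iff k j b hk hb).2 h1
  have hS : Nat.stirlingSecond j k ≠ 0 := (stirling_pos j k hk1 hkj).ne'
  rw [← padicValNat.mul (Nat.factorial_ne_zero k) hS]
  exact (padicValNat_dvd_iff_le (p := 2) (mul_ne_zero (Nat.factorial_ne_zero k) hS)).1 g1

/-- constant-type class -/
def ConstC (k b j : ℕ) : Prop :=
  b ≤ 87 ∧ 2 ^ b ∣ A k 0 j ∧ ¬ 2 ^ (b + 1) ∣ A k 0 j ∧ ∀ s, 1 ≤ s → s ≤ 7 → 2 ^ (b + 1) ∣ A k s j

lemma ConstC.step {k b j : ℕ} (h : ConstC k b j) : ConstC k b (j + 512) := by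
  obtain ⟨h0, h1, h2, h3⟩ := h
  have h8 : ∀ s, 1 ≤ s → 2 ^ (b + 1) ∣ A k s j := by
    intro s hs
    rcases Nat.lt_or_ge 7 s with h | h
    · exact (pow_dvd_pow 2 (by omega)).trans (A_dvd k s j)
    · exact h3 s hs h
  refine ⟨h0, ?_, ?_, ?_⟩
  · rw [A_succ]
    exact dvd_add h1 ((pow_dvd_pow 2 (by omega)).trans (h8 1 (le_refl 1)))
  · rw [A_succ, Nat.dvd_add_left (h8 1 (le_refl 1))]
    exact h2
  · intro s hs _
    rw [A_succ]
    exact dvd_add (h8 s hs) (h8 (s + 1) (by omega))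

/-- root-type class -/
def RootC (k a j : ℕ) : Prop :=
  a ≤ 78 ∧ 2 ^ a ∣ A k 0 j ∧ 2 ^ a ∣ A k 1 j ∧ ¬ 2 ^ (a + 1) ∣ A k 1 j ∧
    (∀ s, 2 ≤ s → s ≤ 3 → 2 ^ (a + 2) ∣ A k s j) ∧ (∀ s, 4 ≤ s → s ≤ 7 → 2 ^ (a + 3) ∣ A k s j)

lemma RootC.step {k a j : ℕ} (h : RootC k a j) : RootC k a (j + 512) := by
  obtain ⟨h0, h1, h2, h3, h4, h5⟩ := h
  have h5' : ∀ s, 4 ≤ s → 2 ^ (a + 3) ∣ A k s j := by
    intro s hs
    rcases Nat.lt_or_ge 7 s with h | h
    · exact (pow_dvd_pow 2 (by omega)).trans (A_dvd k s j)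
    · exact h5 s hs h
  have h4' : ∀ s, 2 ≤ s → 2 ^ (a + 2) ∣ A k s j := by
    intro s hs
    rcases Nat.lt_or_ge 3 s with h | h
    · exact (pow_dvd_pow 2 (by omega)).trans (h5' s h)
    · exact h4 s hs h
  refine ⟨h0, ?_, ?_, ?_, ?_, ?_⟩
  · rw [A_succ]; exact dvd_add h1 h2
  · rw [A_succ]
    exact dvd_add h2 ((pow_dvd_pow 2 (by omega)).trans (h4' 2 (le_refl 2)))
  · rw [A_succ, Nat.dvd_add_left ((pow_dvd_pow 2 (by omega)).trans (h4' 2 (le_refl 2)))]
    exact h3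
  · intro s hs _
    rw [A_succ]
    exact dvd_add (h4' s hs) (h4' (s + 1) (by omega))
  · intro s hs _
    rw [A_succ]
    exact dvd_add (h5' s hs) (h5' (s + 1) (by omega))

lemma ConstC.steps {k b j : ℕ} (h : ConstC k b j) (t : ℕ) : ConstC k b (j + 512 * t) := by
  induction t with
  | zero => exact h
  | succ t ih =>
    have := ih.step
    rwa [show j + 512 * (t + 1) = j + 512 * t + 512 by ring]

lemma RootC.steps {k a j : ℕ} (h : RootC k a j) (t : ℕ) : RootC k a (j + 512 * t) := by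
  induction t with
  | zero => exact h
  | succ t ih =>
    have := ih.step
    rwa [show j + 512 * (t + 1) = j + 512 * t + 512 by ring]

/-- `2^e ∣ C(d,s) * 2^w` when `2^e ∣ d`, `s = 2^w s'` with `s'` odd -/
lemma choose_dvd {d e s w s' : ℕ} (hd : 2 ^ e ∣ d) (hs : s = 2 ^ w * s') (hs' : Odd s')
    (hs1 : 1 ≤ s) : 2 ^ e ∣ Nat.choose d s * 2 ^ w := by
  rcases Nat.eq_zero_or_pos d with h0 | h0
  · subst h0
    rw [Nat.choose_eq_zero_of_lt (by omega), zero_mul]
    exact dvd_zero _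
  · obtain ⟨d1, rfl⟩ : ∃ d1, d = d1 + 1 := ⟨d - 1, by omega⟩
    obtain ⟨s1, hs1'⟩ : ∃ s1, s = s1 + 1 := ⟨s - 1, by omega⟩
    have h := Nat.add_one_mul_choose_eq d1 s1
    rw [← hs1'] at h
    have h2 : 2 ^ e ∣ (Nat.choose (d1 + 1) s * 2 ^ w) * s' := by
      rw [mul_assoc, ← hs, ← h]
      exact hd.mul_right _
    have hcop : Nat.Coprime (2 ^ e) s' := Nat.Coprime.pow_left e (Nat.coprime_two_left.2 hs')
    exact hcop.dvd_of_dvd_mul_right h2

/-- exact valuation of differences in a root-type class -/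
lemma RootC.diff {k a j : ℕ} (h : RootC k a j) {d e d' : ℕ} (hd : d = 2 ^ e * d') (hd' : Odd d') :
    ∃ u, Odd u ∧ A k 0 (j + 512 * d) = A k 0 j + 2 ^ (a + e) * u := by
  obtain ⟨h0, h1, h2, h3, h4, h5⟩ := h
  have hd1 : 1 ≤ d := by
    rw [hd]; exact Nat.mul_pos (by positivity) hd'.pos
  have hbig : ∀ s, 2 ≤ s → 2 ^ (a + e + 1) ∣ Nat.choose d s * A k s j := by
    intro s hs
    obtain ⟨w, s', hs', hsw⟩ := Nat.exists_eq_two_pow_mul_odd (n := s) (by omega)
    have hc := choose_dvd (d := d) (e := e) ⟨d', hd⟩ hsw hs' (by omega)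
    have hle : 2 ^ w ≤ s := by
      rw [hsw]; exact Nat.le_mul_of_pos_right _ hs'.pos
    have hA : 2 ^ (a + 1 + w) ∣ A k s j := by
      rcases Nat.lt_or_ge 7 s with h | h
      · refine (pow_dvd_pow 2 ?_).trans (A_dvd k s j)
        have : w < 2 ^ w := Nat.lt_two_pow_self
        omega
      · rcases Nat.lt_or_ge 3 s with h' | h'
        · refine (pow_dvd_pow 2 ?_).trans (h5 s h' h)
          have : w ≤ 2 := by
            by_contra hw
            have : 2 ^ 3 ≤ 2 ^ w := Nat.pow_le_pow_right (by norm_num) (by omega)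
            omega
          omega
        · refine (pow_dvd_pow 2 ?_).trans (h4 s hs h')
          have : w ≤ 1 := by
            by_contra hw
            have : 2 ^ 2 ≤ 2 ^ w := Nat.pow_le_pow_right (by norm_num) (by omega)
            omega
          omega
    obtain ⟨α, hα⟩ := hA
    obtain ⟨β, hβ⟩ := hc
    refine ⟨β * α, ?_⟩
    rw [hα]
    calc Nat.choose d s * (2 ^ (a + 1 + w) * α) = (Nat.choose d s * 2 ^ w) * 2 ^ (a + 1) * α := by
          rw [pow_add 2 (a + 1) w]; ring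
      _ = _ := by rw [hβ, show a + e + 1 = e + (a + 1) by ring, pow_add]; ring
  obtain ⟨c, hc⟩ := h2
  have hcodd : Odd c := by
    rw [← Nat.not_even_iff_odd]
    rintro ⟨c', hc'⟩
    apply h3
    refine ⟨c', ?_⟩
    rw [hc, hc', pow_succ]; ring
  rw [A_add]
  obtain ⟨d1, hd1'⟩ : ∃ d1, d = d1 + 1 := ⟨d - 1, by omega⟩
  have hsplit : ∑ s ∈ range (d + 1), Nat.choose d s * A k s j =
      A k 0 j + (d * A k 1 j + ∑ s ∈ range d1, Nat.choose d (s + 2) * A k (s + 2) j) := by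
    rw [hd1', Finset.sum_range_succ', Finset.sum_range_succ']
    simp
    ring
  have hrest : 2 ^ (a + e + 1) ∣ ∑ s ∈ range d1, Nat.choose d (s + 2) * A k (s + 2) j :=
    Finset.dvd_sum (fun s _ => hbig (s + 2) (by omega))
  obtain ⟨R, hR⟩ := hrest
  refine ⟨d' * c + 2 * R, ?_, ?_⟩
  · exact (hd'.mul hcodd).add_even ⟨R, by ring⟩
  · rw [hsplit, hR, hc, hd]
    ring

end Pool.Agent.X13.AMM
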