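import Pool.Agent.X13.AMM.Cert

/-!
# Kernel checks of the certificates
-/

open Finset

namespace Pool.Agent.X13.AMM

lemma hT70 : T70 = gen 70 36 := by decide +kernel

lemma hT71 : T71 = gen 71 36 := by decide +kernel

lemma card70 : ((range 512).filter (fun r => cert70.getD r 0 % 2 = 1)).card = 34 := by
  decide +kernel

lemma card71 : ((range 512).filter (fun r => cert71.getD r 0 % 2 = 1)).card = 32 := by
  decide +kernel

lemma check70 : (List.range 512).all (fun r => ok T70 r (cert70.getD r 0)) = true := by
  decide +kernel

lemma check71 : (List.range 512).all (fun r => ok T71 r (cert71.getD r 0)) = true := by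
  decide +kernel

theorem count70 (e : ℕ) : (NN 70 (9 + e)).ncard = 34 :=
  count_of_cert (by norm_num) (by norm_num) T70 cert70 hT70 34 card70 check70 e

theorem count71 (e : ℕ) : (NN 71 (9 + e)).ncard = 32 :=
  count_of_cert (by norm_num) (by norm_num) T71 cert71 hT71 32 card71 check71 e

end Pool.Agent.X13.AMM
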