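import Pool.Agent.X13.AMM.Basic

/-!
# Counting the classes on which the valuation is not constant
-/

open Finset

namespace Pool.Agent.X13.AMM

/-- the class `[n]_t` -/
def cls (n t : ℕ) : Set ℕ := {j | max n t ≤ j ∧ j ≡ n [MOD t]}

/-- a function is constant on a set -/
def ConstOn (f : ℕ → ℕ) (s : Set ℕ) : Prop := ∃ c, f '' s = {c}

/-- `N_{k,m}` -/
def NN (k m : ℕ) : Set ℕ :=
  {n | k ≤ n ∧ n < k + 2 ^ m ∧
    ¬ ConstOn (fun j => padicValNat 2 (Nat.stirlingSecond j k)) (cls n (2 ^ m))}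

lemma constOn_of_forall {f : ℕ → ℕ} {s : Set ℕ} (hs : s.Nonempty) {c : ℕ} (h : ∀ j ∈ s, f j = c) :
    ConstOn f s := by
  refine ⟨c, ?_⟩
  ext y
  constructor
  · rintro ⟨j, hj, rfl⟩
    exact h j hj
  · intro hy
    obtain ⟨j, hj⟩ := hs
    rw [Set.mem_singleton_iff] at hy
    exact ⟨j, hj, by rw [h j hj, hy]⟩

lemma cls_mem {n t j : ℕ} (h : j ∈ cls n t) : ∃ u, j = n + t * u := by
  obtain ⟨h1, h2⟩ := h
  have h3 : n ≤ j := (le_max_left _ _).trans h1
  have h4 : t ∣ j - n := (Nat.modEq_iff_dvd' h3).1 h2.symm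
  obtain ⟨u, hu⟩ := h4
  exact ⟨u, by omega⟩

lemma mem_cls {n t u : ℕ} (hu : 1 ≤ u) : n + t * u ∈ cls n t := by
  refine ⟨?_, ?_⟩
  · have : t ≤ t * u := Nat.le_mul_of_pos_right _ hu
    omega
  · unfold Nat.ModEq
    rw [Nat.add_mul_mod_self_left]

lemma cls_nonempty (n t : ℕ) : (cls n t).Nonempty := ⟨n + t * 1, mem_cls (le_refl 1)⟩

variable {k : ℕ}

lemma mem_of_const (hk : k ≤ 71) {b n e : ℕ} (h : ConstC k b (n % 512)) :
    ConstOn (fun j => padicValNat 2 (Nat.stirlingSecond j k)) (cls n (2 ^ (9 + e))) := by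
  apply constOn_of_forall (cls_nonempty _ _) (c := b - padicValNat 2 k.factorial)
  intro j hj
  have hlow : 2 ^ (9 + e) ≤ j := (le_max_right _ _).trans hj.1
  obtain ⟨u, hu⟩ := cls_mem hj
  have h1 : j = n % 512 + 512 * (n / 512 + 2 ^ e * u) := by
    rw [hu, pow_add]
    have := Nat.mod_add_div n 512
    norm_num
    ring_nf
    ring_nf at this
    omega
  have h2 := h.steps (n / 512 + 2 ^ e * u)
  rw [← h1] at h2
  obtain ⟨h0, h3, h4, _⟩ := h2
  have h5 : 512 ≤ 2 ^ (9 + e) := by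
    have : 2 ^ 9 ≤ 2 ^ (9 + e) := Nat.pow_le_pow_right (by norm_num) (by omega)
    norm_num at this
    exact this
  have := val_eq k j b hk (by omega) h3 h4
  show padicValNat 2 (Nat.stirlingSecond j k) = _
  omega

lemma pow_big (a e : ℕ) (ha : a ≤ 78) : a + e + 2 ≤ 2 ^ (9 + e) := by
  have h1 : 2 ^ (9 + e) = 512 * 2 ^ e := by rw [pow_add]; norm_num
  have h2 : e < 2 ^ e := Nat.lt_two_pow_self
  omega

lemma root_class {a n e : ℕ} (h : RootC k a (n % 512)) (t : ℕ) : RootC k a (n + 512 * t) := by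
  have h1 := h.steps (n / 512 + t)
  rwa [show n % 512 + 512 * (n / 512 + t) = n + 512 * t by
    have := Nat.mod_add_div n 512
    rw [mul_add]; omega] at h1

/-- differences are divisible by `2^(a+e)` -/
lemma root_diff_dvd {a j e u : ℕ} (h : RootC k a j) :
    ∃ w, A k 0 (j + 512 * (2 ^ e * u)) = A k 0 j + 2 ^ (a + e) * w := by
  rcases Nat.eq_zero_or_pos u with h0 | h0
  · subst h0; exact ⟨0, by simp⟩
  · obtain ⟨v, m, hm, hvm⟩ := Nat.exists_eq_two_pow_mul_odd (n := u) (by omega)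
    obtain ⟨y, _, hy⟩ := h.diff (d := 2 ^ e * u) (e := e + v) (d' := m)
      (by rw [hvm, pow_add]; ring) hm
    exact ⟨2 ^ v * y, by rw [hy, ← add_assoc, pow_add 2 (a + e) v]; ring⟩

lemma const_of_root_not (hk : k ≤ 71) {a n e : ℕ} (h : RootC k a (n % 512))
    (hn : ¬ 2 ^ (a + e) ∣ A k 0 n) :
    ConstOn (fun j => padicValNat 2 (Nat.stirlingSecond j k)) (cls n (2 ^ (9 + e))) := by
  have hr : RootC k a n := by simpa using root_class (e := e) h 0
  have hne : A k 0 n ≠ 0 := by intro h0; rw [h0] at hn; exact hn (dvd_zero _)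
  set c := padicValNat 2 (A k 0 n) with hc
  have hc1 : 2 ^ c ∣ A k 0 n := (padicValNat_dvd_iff_le (p := 2) hne).2 (le_refl _)
  have hc2 : ¬ 2 ^ (c + 1) ∣ A k 0 n := fun h => by
    have := (padicValNat_dvd_iff_le (p := 2) hne).1 h
    omega
  have hce : c < a + e := by
    by_contra hcon
    exact hn ((pow_dvd_pow 2 (by omega)).trans hc1)
  apply constOn_of_forall (cls_nonempty _ _) (c := c - padicValNat 2 k.factorial)
  intro j hj
  have hlow : 2 ^ (9 + e) ≤ j := (le_max_right _ _).trans hj.1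
  obtain ⟨u, hu⟩ := cls_mem hj
  have h1 : j = n + 512 * (2 ^ e * u) := by rw [hu, pow_add]; norm_num; ring
  obtain ⟨w, hw⟩ := root_diff_dvd (e := e) (u := u) hr
  rw [← h1] at hw
  have hd : 2 ^ (c + 1) ∣ 2 ^ (a + e) * w := (pow_dvd_pow 2 (by omega)).mul_right w
  have h3 : 2 ^ c ∣ A k 0 j := by
    rw [hw]; exact dvd_add hc1 ((pow_dvd_pow 2 (by omega)).trans hd)
  have h4 : ¬ 2 ^ (c + 1) ∣ A k 0 j := by
    rw [hw, Nat.dvd_add_left hd]; exact hc2
  have h6 := pow_big a e hr.1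
  have := val_eq k j c hk (by omega) h3 h4
  show padicValNat 2 (Nat.stirlingSecond j k) = _
  omega

lemma nonconst_of_root (hk1 : 1 ≤ k) (hk : k ≤ 71) {a n e : ℕ} (hkn : k ≤ n)
    (h : RootC k a (n % 512)) (hn : 2 ^ (a + e) ∣ A k 0 n) :
    ¬ ConstOn (fun j => padicValNat 2 (Nat.stirlingSecond j k)) (cls n (2 ^ (9 + e))) := by
  have hr : RootC k a n := by simpa using root_class (e := e) h 0
  have e1 : ∀ u, n + 2 ^ (9 + e) * u = n + 512 * (2 ^ e * u) := fun u => by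
    rw [pow_add]; norm_num; ring
  have hr1 : RootC k a (n + 512 * (2 ^ e * 1)) := root_class (e := e) h _
  obtain ⟨w, hw⟩ := root_diff_dvd (e := e) (u := 1) hr
  obtain ⟨y, hy, hy'⟩ := hr1.diff (d := 2 ^ e) (e := e) (d' := 1) (by ring) odd_one
  have e2 : n + 512 * (2 ^ e * 1) + 512 * 2 ^ e = n + 512 * (2 ^ e * 2) := by ring
  rw [e2] at hy'
  set j1 := n + 512 * (2 ^ e * 1) with hj1
  set j2 := n + 512 * (2 ^ e * 2) with hj2
  have m1 : j1 ∈ cls n (2 ^ (9 + e)) := by rw [hj1, ← e1]; exact mem_cls (le_refl 1)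
  have m2 : j2 ∈ cls n (2 ^ (9 + e)) := by rw [hj2, ← e1]; exact mem_cls (by norm_num)
  have d1 : 2 ^ (a + e) ∣ A k 0 j1 := by rw [hw]; exact dvd_add hn (Dvd.intro _ rfl)
  have d2 : 2 ^ (a + e) ∣ A k 0 j2 := by rw [hy']; exact dvd_add d1 (Dvd.intro _ rfl)
  have low1 : 2 ^ (9 + e) ≤ j1 := (le_max_right _ _).trans m1.1
  have low2 : 2 ^ (9 + e) ≤ j2 := (le_max_right _ _).trans m2.1
  have hbig := pow_big a e hr.1
  have kj1 : k ≤ j1 := by omega
  have kj2 : k ≤ j2 := by omega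
  rintro ⟨c, hc⟩
  have v1 : padicValNat 2 (Nat.stirlingSecond j1 k) = c := by
    have : padicValNat 2 (Nat.stirlingSecond j1 k) ∈
        (fun j => padicValNat 2 (Nat.stirlingSecond j k)) '' cls n (2 ^ (9 + e)) := ⟨j1, m1, rfl⟩
    rw [hc] at this; exact this
  have v2 : padicValNat 2 (Nat.stirlingSecond j2 k) = c := by
    have : padicValNat 2 (Nat.stirlingSecond j2 k) ∈
        (fun j => padicValNat 2 (Nat.stirlingSecond j k)) '' cls n (2 ^ (9 + e)) := ⟨j2, m2, rfl⟩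
    rw [hc] at this; exact this
  obtain ⟨α, hα⟩ := d1
  have hj2' : A k 0 j2 = 2 ^ (a + e) * (α + y) := by rw [hy', hα]; ring
  have hnd : ∀ x, Odd x → ¬ 2 ^ (a + e + 1) ∣ 2 ^ (a + e) * x := by
    intro x hx hd
    rw [pow_succ] at hd
    have := Nat.dvd_of_mul_dvd_mul_left (by positivity) hd
    rw [← Nat.not_even_iff_odd] at hx
    exact hx (even_iff_two_dvd.2 this)
  rcases Nat.even_or_odd α with hα2 | hα2
  · -- j1 is the deeper one
    have g1 : 2 ^ (a + e + 1) ∣ A k 0 j1 := by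
      obtain ⟨β, hβ⟩ := hα2
      exact ⟨β, by rw [hα, hβ, pow_succ]; ring⟩
    have g2 : ¬ 2 ^ (a + e + 1) ∣ A k 0 j2 := by
      rw [hj2']; exact hnd _ (hα2.add_odd hy)
    have l1 := val_ge k j1 (a + e + 1) hk1 hk kj1 (by omega) g1
    have l2 := val_eq k j2 (a + e) hk (by omega) ⟨_, hj2'⟩ g2
    omega
  · have g1 : ¬ 2 ^ (a + e + 1) ∣ A k 0 j1 := by rw [hα]; exact hnd _ hα2
    have g2 : 2 ^ (a + e + 1) ∣ A k 0 j2 := by
      obtain ⟨β, hβ⟩ := hα2.add_odd hy
      exact ⟨β, by rw [hj2', hβ, pow_succ]; ring⟩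
    have l1 := val_ge k j2 (a + e + 1) hk1 hk kj2 (by omega) g2
    have l2 := val_eq k j1 (a + e) hk (by omega) ⟨_, hα⟩ g1
    omega

/-- in a root-type class, divisibility by `2^(a+e)` determines the argument modulo `2^(9+e)` -/
lemma root_inj {a n d e : ℕ} (h : RootC k a n) (hd : 0 < d) (hde : d < 2 ^ e)
    (h1 : 2 ^ (a + e) ∣ A k 0 (n + 512 * d) - A k 0 n) : False := by
  obtain ⟨v, m, hm, hvm⟩ := Nat.exists_eq_two_pow_mul_odd (n := d) (by omega)
  obtain ⟨y, hy, hy'⟩ := h.diff hvm hm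
  rw [hy', Nat.add_sub_cancel_left] at h1
  have hve : v < e := by
    by_contra hcon
    have h2 : 2 ^ e ≤ 2 ^ v := Nat.pow_le_pow_right (by norm_num) (by omega)
    have h3 : 2 ^ v ≤ d := by rw [hvm]; exact Nat.le_mul_of_pos_right _ hm.pos
    omega
  have h2 : 2 ^ (a + v + 1) ∣ 2 ^ (a + v) * y := (pow_dvd_pow 2 (by omega)).trans h1
  rw [pow_succ] at h2
  have := Nat.dvd_of_mul_dvd_mul_left (by positivity) h2
  rw [← Nat.not_even_iff_odd] at hy
  exact hy (even_iff_two_dvd.2 this)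

lemma root_exists {a n e : ℕ} (h : RootC k a (n % 512)) :
    ∃ u, u < 2 ^ e ∧ 2 ^ (a + e) ∣ A k 0 (n + 512 * u) := by
  have hr : ∀ u, RootC k a (n + 512 * u) := fun u => root_class (e := e) h u
  let φ : ℕ → ℕ := fun u => (A k 0 (n + 512 * u) / 2 ^ a) % 2 ^ e
  have hmaps : ∀ u ∈ range (2 ^ e), φ u ∈ range (2 ^ e) := fun u _ =>
    Finset.mem_range.2 (Nat.mod_lt _ (by positivity))
  have hval : ∀ u, 2 ^ a * (A k 0 (n + 512 * u) / 2 ^ a) = A k 0 (n + 512 * u) := fun u =>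
    Nat.mul_div_cancel' (hr u).2.1
  have hlt : ∀ u u', u < u' → u' < 2 ^ e → φ u ≠ φ u' := by
    intro u u' h1 h2 h3
    have h4 : A k 0 (n + 512 * u) / 2 ^ a ≡ A k 0 (n + 512 * u') / 2 ^ a [MOD 2 ^ e] := h3
    obtain ⟨w, hw⟩ := root_diff_dvd (e := 0) (u := u' - u) (hr u)
    have e1 : n + 512 * u + 512 * (2 ^ 0 * (u' - u)) = n + 512 * u' := by
      rw [pow_zero, one_mul, add_assoc, ← mul_add, Nat.add_sub_cancel' h1.le]
    rw [e1] at hw
    have hle : A k 0 (n + 512 * u) ≤ A k 0 (n + 512 * u') := by rw [hw]; exact Nat.le_add_right _ _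
    have h5 : 2 ^ e ∣ A k 0 (n + 512 * u') / 2 ^ a - A k 0 (n + 512 * u) / 2 ^ a :=
      (Nat.modEq_iff_dvd' (Nat.div_le_div_right hle)).1 h4
    have h6 : 2 ^ (a + e) ∣ A k 0 (n + 512 * u') - A k 0 (n + 512 * u) := by
      rw [← hval u', ← hval u, ← Nat.mul_sub, pow_add]
      exact Nat.mul_dvd_mul_left _ h5
    have e2 : n + 512 * u' = n + 512 * u + 512 * (u' - u) := by
      rw [add_assoc, ← mul_add, Nat.add_sub_cancel' h1.le]
    rw [e2] at h6
    exact root_inj (hr u) (by omega) (by omega) h6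
  have hinj : Set.InjOn φ (range (2 ^ e)) := by
    intro u hu u' hu' h3
    rw [Finset.coe_range, Set.mem_Iio] at hu hu'
    rcases lt_trichotomy u u' with h1 | h1 | h1
    · exact absurd h3 (hlt u u' h1 hu')
    · exact h1
    · exact absurd h3.symm (hlt u' u h1 hu)
  have hsurj := Finset.surjOn_of_injOn_of_card_le φ hmaps hinj (le_refl _)
  obtain ⟨u, hu, hu0⟩ := hsurj (show (0 : ℕ) ∈ ((range (2 ^ e) : Finset ℕ) : Set ℕ) by
    rw [Finset.coe_range, Set.mem_Iio]; positivity)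
  rw [Finset.coe_range, Set.mem_Iio] at hu
  refine ⟨u, hu, ?_⟩
  have h1 : 2 ^ e ∣ A k 0 (n + 512 * u) / 2 ^ a := Nat.dvd_of_mod_eq_zero hu0
  rw [← hval u, pow_add]
  exact Nat.mul_dvd_mul_left _ h1

/-- **Counting.** -/
theorem ncard_NN (hk1 : 1 ≤ k) (hk : k ≤ 71) (Root : Finset ℕ) (hR : Root ⊆ range 512)
    (av bv : ℕ → ℕ) (hroot : ∀ r ∈ Root, RootC k (av r) r)
    (hconst : ∀ r, r < 512 → r ∉ Root → ConstC k (bv r) r) (e : ℕ) :
    (NN k (9 + e)).ncard = Root.card := by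
  have hchar : ∀ n, n ∈ NN k (9 + e) ↔ (k ≤ n ∧ n < k + 2 ^ (9 + e) ∧ n % 512 ∈ Root ∧
      2 ^ (av (n % 512) + e) ∣ A k 0 n) := by
    intro n
    constructor
    · rintro ⟨h1, h2, h3⟩
      have h4 : n % 512 ∈ Root := by
        by_contra hcon
        exact h3 (mem_of_const hk (hconst _ (Nat.mod_lt _ (by norm_num)) hcon))
      refine ⟨h1, h2, h4, ?_⟩
      by_contra hcon
      exact h3 (const_of_root_not hk (hroot _ h4) hcon)
    · rintro ⟨h1, h2, h3, h4⟩
      exact ⟨h1, h2, nonconst_of_root hk1 hk h1 (hroot _ h3) h4⟩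
  -- the bijection `n ↦ n % 512`
  have himg : (fun n => n % 512) '' NN k (9 + e) = (Root : Set ℕ) := by
    ext r
    constructor
    · rintro ⟨n, hn, rfl⟩
      exact ((hchar n).1 hn).2.2.1
    · intro hr
      have hr' : r ∈ Root := hr
      have hr512 : r < 512 := Finset.mem_range.1 (hR hr')
      -- the first element at least `k` congruent to `r`
      obtain ⟨n0, h1, h2, h3⟩ : ∃ n0, k ≤ n0 ∧ n0 < k + 512 ∧ n0 % 512 = r := by
        rcases Nat.lt_or_ge r k with h | h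
        · exact ⟨r + 512, by omega, by omega, by omega⟩
        · exact ⟨r, h, by omega, by omega⟩
      have hrn : RootC k (av r) (n0 % 512) := by rw [h3]; exact hroot r hr'
      obtain ⟨u, hu, hd⟩ := root_exists (e := e) hrn
      have hmod : (n0 + 512 * u) % 512 = r := by
        rw [Nat.add_mul_mod_self_left, h3]
      refine ⟨n0 + 512 * u, (hchar _).2 ⟨by omega, ?_, ?_, ?_⟩, hmod⟩
      · have : 2 ^ (9 + e) = 512 * 2 ^ e := by rw [pow_add]; norm_num
        omega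
      · rw [hmod]; exact hr'
      · rw [hmod]; exact hd
  have hinj : Set.InjOn (fun n => n % 512) (NN k (9 + e)) := by
    intro n hn n' hn' hmod
    have hmod' : n % 512 = n' % 512 := hmod
    have key : ∀ n n', n ∈ NN k (9 + e) → n' ∈ NN k (9 + e) → n % 512 = n' % 512 → n < n' →
        False := by
      intro n n' hn hn' hmod hlt
      obtain ⟨g1, g2, g3, g4⟩ := (hchar n).1 hn
      obtain ⟨g1', g2', g3', g4'⟩ := (hchar n').1 hn'
      obtain ⟨d, hd⟩ : ∃ d, n' = n + 512 * d := ⟨(n' - n) / 512, by omega⟩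
      have hr : RootC k (av (n % 512)) n := by simpa using root_class (e := e) (hroot _ g3) 0
      rw [← hmod] at g4'
      have h1 := Nat.dvd_sub g4' g4
      rw [hd] at h1
      refine root_inj hr (by omega) ?_ h1
      have : 2 ^ (9 + e) = 512 * 2 ^ e := by rw [pow_add]; norm_num
      omega
    rcases lt_trichotomy n n' with h | h | h
    · exact (key n n' hn hn' hmod' h).elim
    · exact h
    · exact (key n' n hn' hn hmod'.symm h).elim
  rw [← hinj.ncard_image, himg, Set.ncard_coe_finset]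

end Pool.Agent.X13.AMM
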